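import Pool.Graph.R_pool_sql_team_seeded_3997aac3.Q201.CU.Pos

/-!
# The automaton of the library on an axis of `ℤ^(d+1)`

The one-dimensional automaton `stp` of the library acts on all lines parallel to the first axis.
The members of the Turing domain are the single markers outside the origin.
-/

set_option autoImplicit false

namespace Pool.Agent.KS6_40.CA

open Function Pool.Agent.Q201.CU
open Nat.Partrec (Code)

variable {d : ℕ}

/-- the point `y` of the first axis -/
def ax (y : ℤ) : Fin (d + 1) → ℤ := fun i => if i = 0 then y else 0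

/-- the points of the first axis -/
def OnAxis (x : Fin (d + 1) → ℤ) : Prop := ∀ i, i ≠ 0 → x i = 0

instance (x : Fin (d + 1) → ℤ) : Decidable (OnAxis x) := by unfold OnAxis; infer_instance

theorem ax_zero (y : ℤ) : (ax y : Fin (d + 1) → ℤ) 0 = y := if_pos rfl

theorem ax_ne (y : ℤ) (i : Fin (d + 1)) (hi : i ≠ 0) : ax y i = 0 := if_neg hi

theorem onAxis_ax (y : ℤ) : OnAxis (ax y : Fin (d + 1) → ℤ) := fun i hi => ax_ne y i hi

theorem OnAxis.eq {x : Fin (d + 1) → ℤ} (h : OnAxis x) : x = ax (x 0) := by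
  funext i
  by_cases hi : i = 0
  · rw [hi, ax_zero]
  · rw [ax_ne _ _ hi, h i hi]

theorem onAxis_add (x : Fin (d + 1) → ℤ) (y : ℤ) : OnAxis (x + ax y) ↔ OnAxis x := by
  unfold OnAxis
  refine forall_congr' fun i => forall_congr' fun hi => ?_
  rw [Pi.add_apply, ax_ne _ _ hi, add_zero]

theorem ax_injective : Injective (ax : ℤ → Fin (d + 1) → ℤ) := by
  intro y y' h
  have := congrFun h 0
  rwa [ax_zero, ax_zero] at this

theorem ax_eq_zero : (ax 0 : Fin (d + 1) → ℤ) = 0 := by
  funext i
  unfold ax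
  split_ifs <;> rfl

variable {N : ℕ} {Q : Type} (ins : Q → CI (N + 3) Q)

/-- a configuration on the first axis, quiescent elsewhere -/
def row (e : ℤ → Cell (N + 3) Q) : Cfg (d + 1) (Cell (N + 3) Q) := fun x =>
  if OnAxis x then e (x 0) else blank (N + 3) Q

theorem row_ax (e : ℤ → Cell (N + 3) Q) (y : ℤ) :
    row e (ax y : Fin (d + 1) → ℤ) = e y := by
  unfold row
  rw [if_pos (onAxis_ax y), ax_zero]

/-- the cellular automaton on `ℤ^(d+1)` -/
def autd (d : ℕ) : CA (d + 1) (Cell (N + 3) Q) where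
  ν := blank (N + 3) Q
  nbhd := {ax (-1), ax 0, ax 1}
  f v := rule ins (v ⟨ax (-1), by simp⟩) (v ⟨ax 0, by simp⟩) (v ⟨ax 1, by simp⟩)
  quiet := rule_idle ins rfl rfl rfl

theorem autd_apply (c : Cfg (d + 1) (Cell (N + 3) Q)) (x : Fin (d + 1) → ℤ) :
    (autd ins d).G c x = rule ins (c (x + ax (-1))) (c (x + ax 0)) (c (x + ax 1)) := rfl

theorem autd_G (e : ℤ → Cell (N + 3) Q) :
    (autd ins d).G (row e) = row (stp ins e) := by
  funext x
  rw [autd_apply]
  unfold row
  by_cases h : OnAxis x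
  · rw [if_pos h, if_pos ((onAxis_add _ _).2 h), if_pos ((onAxis_add _ _).2 h),
      if_pos ((onAxis_add _ _).2 h)]
    simp only [Pi.add_apply, ax_zero, stp]
    rw [add_zero, ← sub_eq_add_neg]
  · rw [if_neg h, if_neg (fun h' => h ((onAxis_add _ _).1 h')),
      if_neg (fun h' => h ((onAxis_add _ _).1 h')), if_neg (fun h' => h ((onAxis_add _ _).1 h'))]
    exact rule_idle ins rfl rfl rfl

theorem autd_iter (e : ℤ → Cell (N + 3) Q) (t : ℕ) :
    (autd ins d).G^[t] (row e) = row ((stp ins)^[t] e) := by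
  induction t with
  | zero => rfl
  | succ t ih => rw [iterate_succ_apply', iterate_succ_apply', ih, autd_G]

/-- the single marker at `z` -/
def mark (N : ℕ) (Q : Type) (z : Fin (d + 1) → ℤ) : Cfg (d + 1) (Cell (N + 3) Q) :=
  fun x => if x = z then mk0 N Q else blank (N + 3) Q

theorem mark_self (z : Fin (d + 1) → ℤ) : mark N Q z z = mk0 N Q := if_pos rfl

theorem mark_ne {z x : Fin (d + 1) → ℤ} (h : x ≠ z) : mark N Q z x = blank (N + 3) Q := if_neg h

theorem mark_injective : Injective (mark N Q : (Fin (d + 1) → ℤ) → _) := by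
  intro z z' h
  by_contra hne
  have h1 := congrFun h z
  rw [mark_self, mark_ne hne] at h1
  exact mk0_ne h1

theorem supp_mark (z : Fin (d + 1) → ℤ) : (autd ins d).Supp (mark N Q z) = {z} := by
  ext x
  simp only [CA.Supp, Set.mem_ofPred_eq, Set.mem_singleton_iff, mark, autd]
  constructor
  · intro h
    by_contra hx
    exact h (if_neg hx)
  · rintro rfl
    rw [if_pos rfl]
    exact mk0_ne

theorem translate_mark (z τ : Fin (d + 1) → ℤ) :
    translate (mark N Q z) τ = mark N Q (z + τ) := by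
  funext x
  show (if x - τ = z then mk0 N Q else blank (N + 3) Q) =
    if x = z + τ then mk0 N Q else blank (N + 3) Q
  by_cases h : x = z + τ
  · rw [if_pos h, if_pos (by rw [h]; abel)]
  · rw [if_neg h, if_neg]
    intro h'
    exact h (by rw [← h']; abel)

theorem row_dl (y : ℤ) : (row (dl N Q y) : Cfg (d + 1) _) = mark N Q (ax y) := by
  funext x
  unfold row mark dl
  by_cases h : OnAxis x
  · rw [if_pos h]
    by_cases h1 : x 0 = y
    · rw [if_pos h1, if_pos (by rw [h.eq, h1])]
    · rw [if_neg h1, if_neg]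
      rintro rfl
      exact h1 (ax_zero y)
  · rw [if_neg h, if_neg]
    rintro rfl
    exact h (onAxis_ax y)

/-- configurations without heads are completely passive -/
theorem completelyPassive (c : Cfg (d + 1) (Cell (N + 3) Q)) (hc : ∀ x, (c x).hd = none) :
    (autd ins d).CompletelyPassive c := by
  intro c' hsub
  have h : ∀ x, (c' x).hd = none := by
    intro x
    by_cases hx : c' x = blank (N + 3) Q
    · rw [hx]; rfl
    · rw [← hsub x hx]; exact hc x
  funext x
  rw [autd_apply]
  refine (rule_idle ins (h _) (h _) (h _)).trans ?_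
  rw [ax_eq_zero, add_zero]

theorem mark_hd (z x : Fin (d + 1) → ℤ) : (mark N Q z x).hd = none := by
  unfold mark
  split_ifs <;> rfl

theorem primrec_pos : Primrec fun n : ℕ => (ax ((n : ℤ) + 1) : Fin (d + 1) → ℤ) := by
  apply Primrec.fin_curry.2
  have h : Primrec fun n : ℕ => (n : ℤ) + 1 := by
    apply Primrec.encode_iff.1
    have h2 : Primrec fun n : ℕ => 2 * (n + 1) :=
      Primrec.nat_mul.comp (Primrec.const 2) Primrec.succ
    refine h2.of_eq fun n => ?_
    rfl
  have h3 : Primrec fun p : ℕ × Fin (d + 1) => if p.2 = 0 then (p.1 : ℤ) + 1 else 0 :=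
    Primrec.ite (Primrec.eq.comp Primrec.snd (Primrec.const 0)) (h.comp Primrec.fst)
      (Primrec.const 0)
  exact h3

/-- the inputs -/
def inp (d N : ℕ) (Q : Type) (n : ℕ) : Cfg (d + 1) (Cell (N + 3) Q) :=
  mark N Q (ax ((n : ℤ) + 1))

theorem recursive [Finite Q] : (autd ins d).RecursiveSeq (inp d N Q) := by
  classical
  obtain ⟨k, ⟨en⟩⟩ := Finite.exists_equiv_fin (Cell (N + 3) Q)
  refine ⟨k, en, fun n => [((ax ((n : ℤ) + 1)), en (mk0 N Q))], ?_, ?_⟩
  · apply Primrec.to_comp
    exact Primrec.list_cons.comp (primrec_pos.pair (Primrec.const _)) (Primrec.const [])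
  · intro n x s
    simp only [List.mem_singleton, Prod.mk.injEq, EmbeddingLike.apply_eq_iff_eq]
    constructor
    · rintro ⟨rfl, rfl⟩
      exact ⟨mark_self _, mk0_ne⟩
    · rintro ⟨h1, h2⟩
      have hx : x = ax ((n : ℤ) + 1) := by
        by_contra hx
        apply h2
        rw [← h1]
        exact mark_ne hx
      refine ⟨hx, ?_⟩
      rw [← h1, hx]
      exact mark_self _

/-- the Turing domain: the single markers outside the origin -/
def dom (d N : ℕ) (Q : Type) : Set (Cfg (d + 1) (Cell (N + 3) Q)) :=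
  {c | ∃ z : Fin (d + 1) → ℤ, z ≠ 0 ∧ c = mark N Q z}

theorem ax_succ_ne (n : ℕ) : (ax ((n : ℤ) + 1) : Fin (d + 1) → ℤ) ≠ 0 := by
  intro h
  have := congrFun h 0
  rw [ax_zero, Pi.zero_apply] at this
  omega

theorem inp_mem (n : ℕ) : inp d N Q n ∈ dom d N Q := ⟨_, ax_succ_ne n, rfl⟩

theorem mark_mem {z : Fin (d + 1) → ℤ} : mark N Q z ∈ dom d N Q ↔ z ≠ 0 := by
  constructor
  · rintro ⟨z', h1, h2⟩
    rwa [mark_injective h2]
  · intro h
    exact ⟨z, h, rfl⟩

theorem turingDomain [Finite Q] : (autd ins d).TuringDomain (dom d N Q) (inp d N Q) where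
  finite := by
    rintro c ⟨z, _, rfl⟩
    rw [supp_mark]
    exact Set.finite_singleton _
  mem := inp_mem
  inj := by
    intro n m h
    have := ax_injective (mark_injective h)
    omega
  recursive := recursive ins
  passive := by
    rintro c ⟨z, _, rfl⟩
    exact completelyPassive ins _ fun x => mark_hd z _
  union_passive := by
    intro m f τ hf _ w hw hsub
    refine completelyPassive ins _ fun x => ?_
    by_cases hx : w x = blank (N + 3) Q
    · rw [hx]; rfl
    · have : x ∈ (autd ins d).Supp w := hx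
      rw [hw] at this
      obtain ⟨i, hi⟩ := Set.mem_iUnion.1 this
      rw [hsub i x hi]
      obtain ⟨z, _, hz⟩ := hf i
      rw [hz, translate_mark]
      exact mark_hd _ _

theorem mem_U (x : Fin (d + 1) → ℤ) : x ∈ (autd ins d).U (dom d N Q) ↔ x ≠ 0 := by
  unfold CA.U
  rw [Set.mem_iUnion₂]
  constructor
  · rintro ⟨c, ⟨z, hz, rfl⟩, hx⟩
    rw [supp_mark, Set.mem_singleton_iff] at hx
    rwa [hx]
  · intro hx
    refine ⟨_, ⟨x, hx, rfl⟩, ?_⟩
    rw [supp_mark]
    rfl

theorem row_supp_finite (e : ℤ → Cell (N + 3) Q) (a b : ℤ)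
    (h : ∀ y, e y ≠ blank (N + 3) Q → a ≤ y ∧ y ≤ b) :
    ((autd ins d).Supp (row e)).Finite := by
  have h1 : (autd ins d).Supp (row e) ⊆ (fun y : ℤ => (ax y : Fin (d + 1) → ℤ)) '' Set.Icc a b := by
    intro x hx
    have hx' : row e x ≠ blank (N + 3) Q := hx
    unfold row at hx'
    by_cases hax : OnAxis x
    · rw [if_pos hax] at hx'
      exact ⟨x 0, h _ hx', hax.eq.symm⟩
    · rw [if_neg hax] at hx'
      exact absurd rfl hx'
  exact ((Set.finite_Icc _ _).image _).subset h1

theorem join_row (e e' : ℤ → Cell (N + 3) Q) (x : Fin (d + 1) → ℤ) :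
    (autd ins d).join (row e) (row e') x =
      row (fun y => (aut ins).join (up e) (up e') fun _ => y) x := by
  classical
  have hν : (autd ins d).ν = blank (N + 3) Q := rfl
  have hν' : (aut ins).ν = blank (N + 3) Q := rfl
  by_cases h : OnAxis x
  · obtain ⟨y, rfl⟩ : ∃ y, x = ax y := ⟨_, h.eq⟩
    rw [row_ax]
    by_cases h1 : e y = blank (N + 3) Q
    · rw [join_neg (autd ins d) (by rw [row_ax, hν]; exact h1),
        join_neg (aut ins) (show up e (fun _ => y) = (aut ins).ν from h1), row_ax]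
      rfl
    · rw [join_pos (autd ins d) (by rw [row_ax, hν]; exact h1),
        join_pos (aut ins) (show up e (fun _ => y) ≠ (aut ins).ν from h1), row_ax]
      rfl
  · have h1 : ∀ g : ℤ → Cell (N + 3) Q, row g x = blank (N + 3) Q := fun g => if_neg h
    rw [join_neg (autd ins d) (by rw [h1, hν]), h1, h1]

theorem join_base' (q : Q) (p m : ℕ) :
    (autd ins d).join (row (base N q p)) (inp d N Q m) =
      row (K (q, reg0 (N + 3) (m + 1), p)) := by
  have h0 : inp d N Q m = row (dl N Q ((m : ℤ) + 1)) := (row_dl _).symm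
  rw [h0]
  funext x
  rw [join_row]
  unfold row
  by_cases h : OnAxis x
  · rw [if_pos h, if_pos h, join_base ins q p m]
    rfl
  · rw [if_neg h, if_neg h]

/-- the automaton built from the universal machine computes every partial recursive function -/
theorem computes (L : ℕ) (ins : Fin (L + 1) ⊕ Bool → CI (N + 3) (Fin (L + 1) ⊕ Bool))
    (hlast : ins (.inl (Fin.last L)) = .jmp (.inl (Fin.last L)))
    (hU : ∀ p n y : ℕ, y ∈ (Denumerable.ofNat Code p).eval n →
      ∃ T, (mst ins)^[T] (.inr true, reg0 (N + 3) (n + 1), p) =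
        (.inl (Fin.last L), reg0 (N + 3) (y + 1), 0) ∧
        ∀ i < T, ((mst ins)^[i] (.inr true, reg0 (N + 3) (n + 1), p)).1 ≠ .inl (Fin.last L))
    (ψ : ℕ →. ℕ) (hψ : Partrec ψ) :
    ∃ c, ((autd ins d).Supp c).Finite ∧
      (autd ins d).Computes (dom d N (Fin (L + 1) ⊕ Bool)) (inp d N (Fin (L + 1) ⊕ Bool)) c ψ := by
  classical
  obtain ⟨c0, hc0⟩ := Nat.Partrec.Code.exists_code.1 (Partrec.nat_iff.1 hψ)
  set p := Encodable.encode c0 with hp
  have hpc : Denumerable.ofNat Code p = c0 := Denumerable.ofNat_encode c0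
  have hν : (autd ins d).ν = blank (N + 3) (Fin (L + 1) ⊕ Bool) := rfl
  refine ⟨row (base N (.inr true) p), ?_, ?_, ax 0, ?_, hcell N (.inl (Fin.last L)), ?_,
    fun n m hm => ⟨?_, ?_⟩⟩
  · refine row_supp_finite ins _ (-(p : ℤ)) 0 fun y hy => ?_
    by_contra h
    exact hy ((base_blank _ p _).2 h)
  · rintro ⟨z, _, hz⟩
    have h1 := congrArg Cell.E (congrFun hz (ax 0))
    rw [row_ax] at h1
    have h2 : (mark N (Fin (L + 1) ⊕ Bool) z (ax 0)).E = false := by
      unfold mark; split_ifs <;> rfl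
    have h3 : (base N (Sum.inr true : Fin (L + 1) ⊕ Bool) p 0).E = false := h1.trans h2
    simp [base] at h3
  · show row (base N (.inr true) p) (ax 0) ≠ blank (N + 3) (Fin (L + 1) ⊕ Bool)
    rw [row_ax]
    intro h
    exact (base_blank _ p 0).1 h (by omega)
  · intro h
    have := congrArg Cell.E h
    simp [hcell, hν, blank] at this
  · unfold CA.Disj inp
    rw [supp_mark, Set.disjoint_singleton_right]
    intro h
    have h' : row (base N (.inr true) p) (ax ((n : ℤ) + 1)) ≠
      blank (N + 3) (Fin (L + 1) ⊕ Bool) := h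
    rw [row_ax] at h'
    exact h' ((base_blank _ p _).2 (by omega))
  · have hy : m ∈ (Denumerable.ofNat Code p).eval n := by
      rw [hpc, hc0]; exact hm
    obtain ⟨T0, hT0, hT1⟩ := hU p n m hy
    obtain ⟨t, ht0, ht1⟩ := reach_run (ins := ins) (last := .inl (Fin.last L)) _ T0 hT1
    rw [hT0] at ht0
    have hfix : stp ins (K (.inl (Fin.last L), reg0 (N + 3) (m + 1), 0)) =
        K (.inl (Fin.last L), reg0 (N + 3) (m + 1), 0) :=
      move_jmp ins _ _ _ _ hlast
    have hpass : (autd ins d).Passive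
        (row (K (.inl (Fin.last L), reg0 (N + 3) (m + 1), 0))) := by
      unfold CA.Passive
      rw [autd_G, hfix]
    have hres : (autd ins d).restrict (row (K (.inl (Fin.last L), reg0 (N + 3) (m + 1), 0)))
        ((autd ins d).U (dom d N (Fin (L + 1) ⊕ Bool))) =
        inp d N (Fin (L + 1) ⊕ Bool) m := by
      have h0 : inp d N (Fin (L + 1) ⊕ Bool) m = row (dl N _ ((m : ℤ) + 1)) := (row_dl _).symm
      rw [h0]
      funext x
      simp only [CA.restrict]
      by_cases hx : x ∈ (autd ins d).U (dom d N (Fin (L + 1) ⊕ Bool))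
      · rw [if_pos hx]
        unfold row
        by_cases hax : OnAxis x
        · rw [if_pos hax, if_pos hax]
          apply K_final
          intro h
          apply (mem_U ins x).1 hx
          rw [hax.eq, h, ax_eq_zero]
        · rw [if_neg hax, if_neg hax]
      · rw [if_neg hx, hν]
        have hx0 : x = 0 := by
          by_contra h
          exact hx ((mem_U ins x).2 h)
        rw [hx0, ← ax_eq_zero, row_ax]
        unfold dl
        rw [if_neg]
        omega
    have hmp : (autd ins d).Passive (inp d N (Fin (L + 1) ⊕ Bool) m) :=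
      completelyPassive ins _ (fun x => mark_hd _ _) _ (fun x _ => rfl)
    refine ⟨t, ?_⟩
    rw [join_base', autd_iter, ht0]
    refine ⟨?_, fun i hi => ?_, ?_, hres⟩
    · rw [row_ax]
      exact K_origin _ m
    · rw [autd_iter, row_ax]
      intro h
      apply ht1 i hi
      rw [h]
      rfl
    · apply no_info _ _ _ hpass
      rw [hres]
      exact hmp

/-! ### there is no universal computer -/

/-- at some time the restriction to `W` is the output `i`, and the marker stays from then on -/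
def Shows (X : Cfg (d + 1) (Cell (N + 3) Q)) (W : Set (Fin (d + 1) → ℤ)) (i : ℕ) : Prop :=
  ∃ t, (autd ins d).restrict ((autd ins d).G^[t] X) W = inp d N Q i ∧
    ∀ s, t ≤ s → (autd ins d).G^[s] X (ax ((i : ℤ) + 1)) = mk0 N Q

theorem shows_of_computes (T : Set (Cfg (d + 1) (Cell (N + 3) Q)))
    (c : Cfg (d + 1) (Cell (N + 3) Q)) (ψ : ℕ →. ℕ) (n i : ℕ) (hi : i ∈ ψ n)
    (h : (autd ins d).Computes T (inp d N Q) c ψ) :
    Shows ins ((autd ins d).join c (inp d N Q n)) ((autd ins d).U T) i := by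
  obtain ⟨_, α, _, s, _, h1⟩ := h
  obtain ⟨_, t, _, _, h2, h3⟩ := h1 n i hi
  refine ⟨t, h3, fun k hk => ?_⟩
  obtain ⟨r, rfl⟩ : ∃ r, k = r + t := ⟨k - t, by omega⟩
  rw [iterate_add_apply]
  set e := (autd ins d).G^[t] ((autd ins d).join c (inp d N Q n)) with he
  have hmp : (autd ins d).Passive (inp d N Q i) :=
    completelyPassive ins _ (fun x => mark_hd _ _) _ (fun x _ => rfl)
  by_contra hne
  apply h2
  refine ⟨r, ax ((i : ℤ) + 1), ?_, ?_⟩
  · rw [h3, iter_passive _ hmp]
    unfold inp
    rw [supp_mark]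
    rfl
  · rw [join_restrict, h3, iter_passive _ hmp]
    have : inp d N Q i (ax ((i : ℤ) + 1)) = mk0 N Q := mark_self _
    rw [this]
    exact hne

theorem shows_aux (X : Cfg (d + 1) (Cell (N + 3) Q)) (W : Set (Fin (d + 1) → ℤ))
    (hW : ∀ i : ℕ, ax ((i : ℤ) + 1) ∈ W) (i j : ℕ) (t t' : ℕ) (htt : t ≤ t')
    (h1 : ∀ s, t ≤ s → (autd ins d).G^[s] X (ax ((i : ℤ) + 1)) = mk0 N Q)
    (h2 : (autd ins d).restrict ((autd ins d).G^[t'] X) W = inp d N Q j) : i = j := by
  classical
  have h3 := h1 t' htt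
  have h4 := congrFun h2 (ax ((i : ℤ) + 1))
  unfold CA.restrict at h4
  rw [if_pos (hW i), h3] at h4
  by_contra hij
  have h5 : inp d N Q j (ax ((i : ℤ) + 1)) = blank (N + 3) Q := by
    apply mark_ne
    intro h
    have := ax_injective h
    omega
  rw [h5] at h4
  exact mk0_ne h4

theorem shows_unique (X : Cfg (d + 1) (Cell (N + 3) Q)) (W : Set (Fin (d + 1) → ℤ))
    (hW : ∀ i : ℕ, ax ((i : ℤ) + 1) ∈ W) (i j : ℕ)
    (h : Shows ins X W i) (h' : Shows ins X W j) : i = j := by
  obtain ⟨t, h1, h2⟩ := h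
  obtain ⟨t', h1', h2'⟩ := h'
  rcases le_total t t' with htt | htt
  · exact shows_aux ins X W hW i j t t' htt h2 h1'
  · exact (shows_aux ins X W hW j i t' t htt h2' h1).symm

/-- a translate of a member outside the domain is the marker at the origin -/
theorem translate_not_mem {f : Cfg (d + 1) (Cell (N + 3) Q)} (hf : f ∈ dom d N Q)
    {τ : Fin (d + 1) → ℤ} (h : translate f τ ∉ dom d N Q) : translate f τ = mark N Q 0 := by
  obtain ⟨z, _, rfl⟩ := hf
  rw [translate_mark] at h ⊢
  congr 1
  by_contra hne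
  exact h (mark_mem.2 hne)

/-- two partial functions computed by one configuration, with any programs, are compatible -/
theorem compatible (c : Cfg (d + 1) (Cell (N + 3) Q)) (ψ φ : ℕ →. ℕ)
    (f g : Cfg (d + 1) (Cell (N + 3) Q)) (hf : f ∈ dom d N Q) (hg : g ∈ dom d N Q)
    (τ σ : Fin (d + 1) → ℤ) (h1 : translate f τ ∉ dom d N Q) (h2 : translate g σ ∉ dom d N Q)
    (h3 : (autd ins d).Computes (dom d N Q) (inp d N Q) ((autd ins d).join c (translate f τ)) ψ)
    (h4 : (autd ins d).Computes (dom d N Q) (inp d N Q) ((autd ins d).join c (translate g σ)) φ)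
    (n i j : ℕ) (hi : i ∈ ψ n) (hj : j ∈ φ n) : i = j := by
  rw [translate_not_mem hf h1] at h3
  rw [translate_not_mem hg h2] at h4
  exact shows_unique ins _ _ (fun k => (mem_U ins _).2 (ax_succ_ne k)) i j
    (shows_of_computes ins _ _ ψ n i hi h3) (shows_of_computes ins _ _ φ n j hj h4)

end Pool.Agent.KS6_40.CA
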